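import Pool.Agent.K1H79.TW.Stm

/-! # Project TW (helper79), piece K: the norms of ideal classes have index at most `[K:E]` -/

set_option autoImplicit false

namespace Pool.Agent.K1H43.TW

open NumberField IsDedekindDomain Pool.Agent.K1H79.TW
open scoped nonZeroDivisors Classical

/-- the weight of a prime -/
noncomputable def xw (F : Type) [Field F] [NumberField F] (s : ℝ) (v : HeightOneSpectrum (𝓞 F)) : ℝ :=
  ((Ideal.absNorm v.asIdeal : ℕ) : ℝ) ^ (-s)

lemma one_le_norm (F : Type) [Field F] [NumberField F] (v : HeightOneSpectrum (𝓞 F)) :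
    (1 : ℝ) ≤ ((Ideal.absNorm v.asIdeal : ℕ) : ℝ) := by
  have : 0 < Ideal.absNorm v.asIdeal :=
    Nat.pos_of_ne_zero (by rw [Ne, Ideal.absNorm_eq_zero_iff]; exact v.ne_bot)
  exact_mod_cast this

lemma xw_nonneg (F : Type) [Field F] [NumberField F] (s : ℝ) (v : HeightOneSpectrum (𝓞 F)) :
    0 ≤ xw F s v := Real.rpow_nonneg (by positivity) _

lemma xw_anti (F : Type) [Field F] [NumberField F] {s t : ℝ} (h : s ≤ t) (v : HeightOneSpectrum (𝓞 F)) :
    xw F t v ≤ xw F s v :=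
  Real.rpow_le_rpow_of_exponent_le (one_le_norm F v) (by linarith)

/-- values near one -/
lemma exists_near (B : ℝ) (s : ℝ) (hs : 1 < s) :
    ∃ t : ℝ, 1 < t ∧ t ≤ s ∧ t ≤ 2 ∧ B < Real.log (1 / (t - 1)) := by
  have he : 0 < Real.exp (-(|B| + 1)) := Real.exp_pos _
  have he1 : Real.exp (-(|B| + 1)) ≤ 1 := by
    rw [Real.exp_le_one_iff]
    have := abs_nonneg B
    linarith
  refine ⟨1 + min (s - 1) (Real.exp (-(|B| + 1))), ?_, ?_, ?_, ?_⟩
  · have : 0 < min (s - 1) (Real.exp (-(|B| + 1))) := lt_min (by linarith) he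
    linarith
  · have := min_le_left (s - 1) (Real.exp (-(|B| + 1)))
    linarith
  · have := min_le_right (s - 1) (Real.exp (-(|B| + 1)))
    linarith
  · have h1 : 0 < min (s - 1) (Real.exp (-(|B| + 1))) := lt_min (by linarith) he
    have h2 : 1 + min (s - 1) (Real.exp (-(|B| + 1))) - 1 = min (s - 1) (Real.exp (-(|B| + 1))) := by ring
    rw [h2, one_div, Real.log_inv]
    have h3 : Real.log (min (s - 1) (Real.exp (-(|B| + 1)))) ≤ -(|B| + 1) := by
      calc _ ≤ Real.log (Real.exp (-(|B| + 1))) := Real.log_le_log h1 (min_le_right _ _)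
        _ = _ := Real.log_exp _
    have := le_abs_self B
    linarith

lemma summ (hALL : S_ALL) (F : Type) [Field F] [NumberField F] (s : ℝ) (hs : 1 < s) :
    Summable (xw F s) := by
  obtain ⟨C, hC⟩ := hALL F
  obtain ⟨t, h1, h2, h3, h4⟩ := exists_near C s hs
  have hst : Summable (xw F t) := by
    by_contra hn
    have h := hC t h1 h3
    have h0 : (∑' v : HeightOneSpectrum (𝓞 F), ((Ideal.absNorm v.asIdeal : ℕ) : ℝ) ^ (-t)) = 0 :=
      tsum_eq_zero_of_not_summable hn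
    rw [h0, zero_sub, abs_neg] at h
    have := le_abs_self (Real.log (1 / (t - 1)))
    linarith
  exact Summable.of_nonneg_of_le (xw_nonneg F s) (xw_anti F h2) hst

/-- sums over the fibres -/
lemma tsum_comp_le {W V : Type*} (g : W → V) (m : ℕ)
    (hfib : ∀ v, ∀ t : Finset W, (∀ w ∈ t, g w = v) → t.card ≤ m) (F : V → ℝ) (hF : ∀ v, 0 ≤ F v)
    (hs : Summable F) : Summable (fun w => F (g w)) ∧ ∑' w, F (g w) ≤ m * ∑' v, F v := by
  have key : ∀ t : Finset W, ∑ w ∈ t, F (g w) ≤ m * ∑' v, F v := by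
    intro t
    rw [Finset.sum_comp F g]
    calc ∑ b ∈ t.image g, (t.filter (fun a => g a = b)).card • F b
        ≤ ∑ b ∈ t.image g, (m : ℝ) * F b := by
          refine Finset.sum_le_sum (fun b _ => ?_)
          rw [nsmul_eq_mul]
          refine mul_le_mul_of_nonneg_right ?_ (hF b)
          exact_mod_cast hfib b _ (fun w hw => (Finset.mem_filter.mp hw).2)
      _ = m * ∑ b ∈ t.image g, F b := by rw [Finset.mul_sum]
      _ ≤ m * ∑' v, F v :=
          mul_le_mul_of_nonneg_left (hs.sum_le_tsum _ (fun v _ => hF v)) (by positivity)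
  have hsum : Summable (fun w => F (g w)) :=
    summable_of_sum_le (fun w => hF (g w)) key
  exact ⟨hsum, hsum.tsum_le_of_sum_le key⟩

/-- the characters which are trivial on a subgroup -/
lemma exists_chars {A : Type} [CommGroup A] [Finite A] (H : Subgroup A) :
    ∃ (ι : Type) (_ : Fintype ι) (χ : ι → (A →* ℂˣ)) (i₀ : ι), χ i₀ = 1 ∧ (∀ i, i ≠ i₀ → χ i ≠ 1) ∧
      ∀ a : A, ∑ i, (((χ i a : ℂˣ) : ℂ)).re = if a ∈ H then (H.index : ℝ) else 0 := by
  let Q := Additive (A ⧸ H)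
  have : Finite Q := inferInstanceAs (Finite (A ⧸ H))
  have : Fintype Q := Fintype.ofFinite _
  let f : AddChar Q ℂ → (A →* ℂ) := fun ψ =>
    { toFun := fun a => ψ (Additive.ofMul (QuotientGroup.mk a : A ⧸ H))
      map_one' := by
        rw [QuotientGroup.mk_one, ofMul_one, AddChar.map_zero_eq_one]
      map_mul' := fun a b => by
        rw [QuotientGroup.mk_mul, ofMul_mul, AddChar.map_add_eq_mul] }
  let χ : AddChar Q ℂ → (A →* ℂˣ) := fun ψ => (f ψ).toHomUnits
  have hχ : ∀ ψ a, ((χ ψ a : ℂˣ) : ℂ) = ψ (Additive.ofMul (QuotientGroup.mk a : A ⧸ H)) := by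
    intro ψ a
    rfl
  refine ⟨AddChar Q ℂ, inferInstance, χ, 0, ?_, ?_, ?_⟩
  · ext a
    rw [hχ]
    simp
  · intro ψ hψ h
    apply hψ
    ext q
    obtain ⟨a, ha⟩ := QuotientGroup.mk_surjective (Additive.toMul q)
    have h1 := hχ ψ a
    rw [h] at h1
    rw [ha] at h1
    simpa using h1.symm
  · intro a
    have h1 : ∑ ψ : AddChar Q ℂ, ((χ ψ a : ℂˣ) : ℂ) =
        if (Additive.ofMul (QuotientGroup.mk a : A ⧸ H) : Q) = 0 then (Fintype.card Q : ℂ) else 0 := by
      rw [← AddChar.sum_apply_eq_ite]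
      rfl
    have h2 : ∑ ψ : AddChar Q ℂ, (((χ ψ a : ℂˣ) : ℂ)).re =
        (∑ ψ : AddChar Q ℂ, ((χ ψ a : ℂˣ) : ℂ)).re := by
      rw [Complex.re_sum]
    rw [h2, h1]
    have h3 : ((Additive.ofMul (QuotientGroup.mk a : A ⧸ H) : Q) = 0) ↔ a ∈ H := by
      rw [← QuotientGroup.eq_one_iff]
      rfl
    have h4 : Fintype.card Q = H.index := by
      rw [← Nat.card_eq_fintype_card, Subgroup.index]
      rfl
    by_cases ha : a ∈ H
    · rw [if_pos (h3.mpr ha), if_pos ha, h4]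
      simp
    · rw [if_neg (fun h => ha (h3.mp h)), if_neg ha]
      simp

/-- upper bound for the primes with class in the subgroup -/
lemma upper (hCHR : S_CHR) (hALL : S_ALL) (E : Type) [Field E] [NumberField E]
    (H : Subgroup (ClassGroup (𝓞 E))) : ∃ C : ℝ, ∀ s : ℝ, 1 < s → s ≤ 2 →
      (H.index : ℝ) * ∑' v : HeightOneSpectrum (𝓞 E),
        (if ClassGroup.mk0 ⟨v.asIdeal, mem_nonZeroDivisors_of_ne_zero v.ne_bot⟩ ∈ H then xw E s v else 0) ≤
      Real.log (1 / (s - 1)) + C := by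
  obtain ⟨ι, _, χ, i₀, h0, h1, hsum⟩ := exists_chars H
  obtain ⟨C0, hC0⟩ := hALL E
  have hex : ∀ i : ι, ∃ C : ℝ, i ≠ i₀ → ∀ s : ℝ, 1 < s → s ≤ 2 →
      ∑' v : HeightOneSpectrum (𝓞 E),
        ((χ i (ClassGroup.mk0 ⟨v.asIdeal, mem_nonZeroDivisors_of_ne_zero v.ne_bot⟩) : ℂˣ) : ℂ).re *
          ((Ideal.absNorm v.asIdeal : ℕ) : ℝ) ^ (-s) ≤ C := by
    intro i
    by_cases hi : i = i₀
    · exact ⟨0, fun h => absurd hi h⟩
    · obtain ⟨C, hC⟩ := hCHR E (χ i) (h1 i hi)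
      exact ⟨C, fun _ => hC⟩
  choose C hC using hex
  refine ⟨C0 + ∑ i ∈ Finset.univ.erase i₀, C i, fun s hs hs2 => ?_⟩
  have hx := summ hALL E s hs
  let cl : HeightOneSpectrum (𝓞 E) → ClassGroup (𝓞 E) := fun v =>
    ClassGroup.mk0 ⟨v.asIdeal, mem_nonZeroDivisors_of_ne_zero v.ne_bot⟩
  have hnorm : ∀ i v, ‖((χ i (cl v) : ℂˣ) : ℂ)‖ ≤ 1 := by
    intro i v
    have hfin : IsOfFinOrder (cl v) := isOfFinOrder_of_finite _
    have hfin2 : IsOfFinOrder ((χ i (cl v) : ℂˣ) : ℂ) := by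
      have := ((Units.coeHom ℂ).comp (χ i)).isOfFinOrder hfin
      exact this
    exact le_of_eq hfin2.norm_eq_one
  have hsm : ∀ i, Summable (fun v => ((χ i (cl v) : ℂˣ) : ℂ).re * xw E s v) := by
    intro i
    refine Summable.of_norm_bounded hx (fun v => ?_)
    rw [Real.norm_eq_abs, abs_mul, abs_of_nonneg (xw_nonneg E s v)]
    have h2 := (Complex.abs_re_le_norm ((χ i (cl v) : ℂˣ) : ℂ)).trans (hnorm i v)
    calc _ ≤ 1 * xw E s v := mul_le_mul_of_nonneg_right h2 (xw_nonneg E s v)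
      _ = _ := one_mul _
  have e1 : (H.index : ℝ) * ∑' v : HeightOneSpectrum (𝓞 E), (if cl v ∈ H then xw E s v else 0) =
      ∑ i, ∑' v, ((χ i (cl v) : ℂˣ) : ℂ).re * xw E s v := by
    rw [← tsum_mul_left, ← Summable.tsum_finsetSum (fun i _ => hsm i)]
    refine tsum_congr (fun v => ?_)
    rw [← Finset.sum_mul, hsum (cl v)]
    by_cases hv : cl v ∈ H
    · rw [if_pos hv, if_pos hv]
    · rw [if_neg hv, if_neg hv, mul_zero, zero_mul]
  change (H.index : ℝ) * ∑' v : HeightOneSpectrum (𝓞 E), (if cl v ∈ H then xw E s v else 0) ≤ _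
  rw [e1, ← Finset.add_sum_erase _ _ (Finset.mem_univ i₀)]
  have e2 : ∑' v, ((χ i₀ (cl v) : ℂˣ) : ℂ).re * xw E s v ≤ Real.log (1 / (s - 1)) + C0 := by
    have e3 : ∑' v, ((χ i₀ (cl v) : ℂˣ) : ℂ).re * xw E s v = ∑' v, xw E s v := by
      refine tsum_congr (fun v => ?_)
      rw [h0]
      simp
    rw [e3]
    have := le_abs_self (∑' v : HeightOneSpectrum (𝓞 E), xw E s v - Real.log (1 / (s - 1)))
    have h4 := hC0 s hs hs2
    change |∑' v : HeightOneSpectrum (𝓞 E), xw E s v - Real.log (1 / (s - 1))| ≤ C0 at h4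
    linarith
  have e4 : ∑ i ∈ Finset.univ.erase i₀, ∑' v, ((χ i (cl v) : ℂˣ) : ℂ).re * xw E s v ≤
      ∑ i ∈ Finset.univ.erase i₀, C i := by
    refine Finset.sum_le_sum (fun i hi => ?_)
    exact hC i (Finset.ne_of_mem_erase hi) s hs hs2
  linarith

/-- the prime below -/
noncomputable def dn (E K : Type) [Field E] [NumberField E] [Field K] [NumberField K] [Algebra E K]
    (w : HeightOneSpectrum (𝓞 K)) : HeightOneSpectrum (𝓞 E) :=
  haveI := w.isMaximal
  { asIdeal := w.asIdeal.under (𝓞 E)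
    isPrime := inferInstance
    ne_bot := by
      intro h
      have : w.asIdeal.LiesOver (⊥ : Ideal (𝓞 E)) := ⟨h.symm⟩
      exact w.ne_bot (Ideal.eq_bot_of_liesOver_bot (𝓞 E) w.asIdeal) }

lemma dn_liesOver (E K : Type) [Field E] [NumberField E] [Field K] [NumberField K] [Algebra E K]
    (w : HeightOneSpectrum (𝓞 K)) : w.asIdeal.LiesOver (dn E K w).asIdeal := ⟨rfl⟩

lemma relNorm_dn (E K : Type) [Field E] [NumberField E] [Field K] [NumberField K] [Algebra E K]
    (w : HeightOneSpectrum (𝓞 K)) : ∃ f : ℕ, 1 ≤ f ∧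
      Ideal.relNorm (𝓞 E) w.asIdeal = (dn E K w).asIdeal ^ f ∧
      Ideal.absNorm w.asIdeal = Ideal.absNorm (dn E K w).asIdeal ^ f := by
  have := w.isMaximal
  have := (dn E K w).isMaximal
  have := dn_liesOver E K w
  have h1 := Ideal.relNorm_eq_pow_of_isMaximal w.asIdeal (dn E K w).asIdeal
  refine ⟨_, Ideal.inertiaDeg_pos w.asIdeal (𝓞 E), h1, ?_⟩
  rw [← Ideal.absNorm_relNorm (𝓞 E) (𝓞 K) w.asIdeal, h1, map_pow]

lemma fib (E K : Type) [Field E] [NumberField E] [Field K] [NumberField K] [Algebra E K]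
    (v : HeightOneSpectrum (𝓞 E)) (t : Finset (HeightOneSpectrum (𝓞 K)))
    (ht : ∀ w ∈ t, dn E K w = v) : t.card ≤ Module.finrank E K := by
  have := v.isMaximal
  have : NoZeroSMulDivisors (𝓞 E) (𝓞 K) := ⟨fun {c x} h => by
    rw [Algebra.smul_def] at h
    rcases mul_eq_zero.mp h with h | h
    · left
      exact FaithfulSMul.algebraMap_injective (𝓞 E) (𝓞 K) (by rw [h, map_zero])
    · right
      exact h⟩
  have h1 := Ideal.card_primesOverFinset_le_finrank (R := 𝓞 E) (𝓞 K) E K (p := v.asIdeal) v.ne_bot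
  refine le_trans ?_ h1
  refine Finset.card_le_card_of_injOn (fun w => w.asIdeal) (fun w hw => ?_) ?_
  · have hw' := ht w hw
    rw [Finset.mem_coe, IsDedekindDomain.mem_primesOverFinset_iff v.ne_bot]
    refine ⟨w.isPrime, ?_⟩
    rw [← hw']
    exact dn_liesOver E K w
  · intro a _ b _ hab
    exact HeightOneSpectrum.ext hab

/-- the class of a prime -/
noncomputable def cl (E : Type) [Field E] [NumberField E] (v : HeightOneSpectrum (𝓞 E)) :
    ClassGroup (𝓞 E) :=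
  ClassGroup.mk0 ⟨v.asIdeal, mem_nonZeroDivisors_of_ne_zero v.ne_bot⟩

/-- the weights of the primes with class in a subgroup -/
noncomputable def yw (E : Type) [Field E] [NumberField E] (H : Subgroup (ClassGroup (𝓞 E))) (s : ℝ)
    (v : HeightOneSpectrum (𝓞 E)) : ℝ := if cl E v ∈ H then xw E s v else 0

lemma yw_nonneg (E : Type) [Field E] [NumberField E] (H : Subgroup (ClassGroup (𝓞 E))) (s : ℝ)
    (v : HeightOneSpectrum (𝓞 E)) : 0 ≤ yw E H s v := by
  unfold yw
  split_ifs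
  · exact xw_nonneg E s v
  · exact le_rfl

lemma yw_le (E : Type) [Field E] [NumberField E] (H : Subgroup (ClassGroup (𝓞 E))) (s : ℝ)
    (v : HeightOneSpectrum (𝓞 E)) : yw E H s v ≤ xw E s v := by
  unfold yw
  split_ifs
  · exact le_rfl
  · exact xw_nonneg E s v

lemma pt (E K : Type) [Field E] [NumberField E] [Field K] [NumberField K]
    [Algebra E K] (N : ClassGroup (𝓞 K) →* ClassGroup (𝓞 E)) (hN : IsNm E K N) (s : ℝ) (hs1 : 1 < s)
    (w : HeightOneSpectrum (𝓞 K)) :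
    xw K s w ≤ yw E N.range s (dn E K w) + xw E 2 (dn E K w) := by
  obtain ⟨f, hf1, hf2, hf3⟩ := relNorm_dn E K w
  rcases Nat.lt_or_ge 1 f with hf | hf
  · have h0 := yw_nonneg E N.range s (dn E K w)
    have h5 : xw K s w ≤ xw E 2 (dn E K w) := by
      unfold xw
      rw [hf3, Nat.cast_pow, ← Real.rpow_natCast, ← Real.rpow_mul (by positivity)]
      refine Real.rpow_le_rpow_of_exponent_le (one_le_norm E _) ?_
      have h6 : (2:ℝ) ≤ (f : ℝ) := by exact_mod_cast hf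
      have h7 : (2:ℝ) * 1 ≤ (f : ℝ) * s := mul_le_mul h6 hs1.le (by norm_num) (by linarith)
      linarith
    linarith
  · have hfe : f = 1 := le_antisymm hf hf1
    rw [hfe, pow_one] at hf2 hf3
    have hmem : cl E (dn E K w) ∈ N.range := by
      refine ⟨ClassGroup.mk0 ⟨w.asIdeal, mem_nonZeroDivisors_of_ne_zero w.ne_bot⟩, ?_⟩
      exact hN _ _ hf2.symm
    have h4 : yw E N.range s (dn E K w) = xw E s (dn E K w) := if_pos hmem
    have h5 : xw K s w = xw E s (dn E K w) := by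
      unfold xw
      rw [hf3]
    have h6 := xw_nonneg E 2 (dn E K w)
    rw [h4, h5]
    linarith

lemma lower (hALL : S_ALL) (E K : Type) [Field E] [NumberField E] [Field K] [NumberField K]
    [Algebra E K] (N : ClassGroup (𝓞 K) →* ClassGroup (𝓞 E)) (hN : IsNm E K N) :
    ∃ C : ℝ, ∀ s : ℝ, 1 < s → s ≤ 2 →
      Real.log (1 / (s - 1)) - C ≤ (Module.finrank E K : ℝ) * ∑' v, yw E N.range s v := by
  obtain ⟨C2, hC2⟩ := hALL K
  refine ⟨C2 + (Module.finrank E K : ℝ) * ∑' v, xw E 2 v, fun s hs1 hs2 => ?_⟩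
  have hxE := summ hALL E s hs1
  have hxK := summ hALL K s hs1
  have hxE2 := summ hALL E 2 (by norm_num)
  have hsH : Summable (yw E N.range s) :=
    Summable.of_nonneg_of_le (yw_nonneg E N.range s) (yw_le E N.range s) hxE
  obtain ⟨g1, g2⟩ := tsum_comp_le (dn E K) (Module.finrank E K) (fib E K)
    (yw E N.range s) (yw_nonneg E N.range s) hsH
  obtain ⟨g3, g4⟩ := tsum_comp_le (dn E K) (Module.finrank E K) (fib E K) (xw E 2) (xw_nonneg E 2) hxE2
  have hlow : ∑' w, xw K s w ≤ (Module.finrank E K : ℝ) * ∑' v, yw E N.range s v +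
      (Module.finrank E K : ℝ) * ∑' v, xw E 2 v :=
    calc ∑' w, xw K s w ≤ ∑' w, (yw E N.range s (dn E K w) +
          xw E 2 (dn E K w)) := hxK.tsum_le_tsum (pt E K N hN s hs1) (g1.add g3)
      _ = ∑' w, yw E N.range s (dn E K w) + ∑' w, xw E 2 (dn E K w) := g1.tsum_add g3
      _ ≤ _ := add_le_add g2 g4
  have h7 := hC2 s hs1 hs2
  have h8 := neg_abs_le (∑' v : HeightOneSpectrum (𝓞 K), ((Ideal.absNorm v.asIdeal : ℕ) : ℝ) ^ (-s) -
    Real.log (1 / (s - 1)))
  have h9 : ∑' w, xw K s w = ∑' v : HeightOneSpectrum (𝓞 K), ((Ideal.absNorm v.asIdeal : ℕ) : ℝ) ^ (-s) :=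
    rfl
  linarith

lemma fin_arith (j m L S C1 C3 : ℝ) (hm : 0 ≤ m) (hj : m + 1 ≤ j) (hL : 0 ≤ L)
    (h1 : j * S ≤ L + C1) (h2 : L - C3 ≤ m * S) (h3 : m * C1 + j * C3 < L) : False := by
  have hj0 : 0 ≤ j := by linarith
  have h10 : j * (L - C3) ≤ m * (L + C1) := by
    calc j * (L - C3) ≤ j * (m * S) := mul_le_mul_of_nonneg_left h2 hj0
      _ = m * (j * S) := by ring
      _ ≤ m * (L + C1) := mul_le_mul_of_nonneg_left h1 hm
  have h13 : (j - m) * L ≤ m * C1 + j * C3 := by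
    have e : (j - m) * L = j * (L - C3) - m * (L + C1) + (m * C1 + j * C3) := by ring
    rw [e]
    linarith
  have h14 : L ≤ (j - m) * L := by
    calc L = 1 * L := (one_mul _).symm
      _ ≤ (j - m) * L := mul_le_mul_of_nonneg_right (by linarith) hL
  linarith

theorem t_IDX : S_IDX := by
  intro hCHR hALL E K _ _ _ _ _ N hN
  obtain ⟨C1, hC1⟩ := upper hCHR hALL E N.range
  obtain ⟨C3, hC3⟩ := lower hALL E K N hN
  by_contra hlt
  rw [not_le] at hlt
  obtain ⟨s, hs1, -, hs2, hs3⟩ :=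
    exists_near ((Module.finrank E K : ℝ) * C1 + (N.range.index : ℝ) * C3) 2 (by norm_num)
  have hL : (0:ℝ) ≤ Real.log (1 / (s - 1)) := by
    apply Real.log_nonneg
    rw [le_div_iff₀ (by linarith)]
    linarith
  exact fin_arith _ _ _ _ C1 C3 (Nat.cast_nonneg _) (by exact_mod_cast hlt) hL
    (hC1 s hs1 hs2) (hC3 s hs1 hs2) hs3

end Pool.Agent.K1H43.TW
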